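import Pool.Agent.R864.SelfInv

set_option autoImplicit false

/-!
# Self-inverting power series and Hessian nilpotency

A self-inverting polynomial over `ℂ` (in any number of variables) is Hessian nilpotent, but there is
a self-inverting formal power series in three variables which is not Hessian nilpotent:
`P = (v + w² / (1 + u))³` with `u = z₁ + i z₂`, `v = z₁ - i z₂`, `w = z₃`.
-/

namespace Pool.Agent.Results.MP_e6e7b2_al.SelfInvertingHN

open MvPowerSeries Pool.Agent.R864.SelfInv

/-- Formal power series in three variables over the complex numbers. -/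
abbrev R := MvPowerSeries (Fin 3) ℂ

/-- The constant power series `i`. -/
noncomputable def J : R := C Complex.I

theorem J_sq : J * J = -1 := by
  unfold J
  rw [← map_mul, Complex.I_mul_I, map_neg, map_one]

theorem dJ (i : Fin 3) : pderiv ℂ i J = 0 := by
  unfold J
  exact pderiv_C

noncomputable def u : R := X 0 + J * X 1
noncomputable def v : R := X 0 - J * X 1
noncomputable def w : R := X 2
noncomputable def r : R := (1 + u)⁻¹
noncomputable def s : R := w * r
/-- `P0 = v + w² / (1 + u)` -/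
noncomputable def P0 : R := v + w ^ 2 * r
/-- the example -/
noncomputable def P : R := P0 ^ 3

theorem pd_lin (i j k : Fin 3) : pderiv ℂ i (X j + J * X k : R) =
    (if i = j then 1 else 0) + J * (if i = k then 1 else 0) := by
  rw [map_add, Derivation.leibniz, dJ, smul_zero, add_zero, pderiv_X, pderiv_X,
    Pi.single_apply, Pi.single_apply, smul_eq_mul]
  simp only [eq_comm]

theorem pd_lin' (i j k : Fin 3) : pderiv ℂ i (X j - J * X k : R) =
    (if i = j then 1 else 0) - J * (if i = k then 1 else 0) := by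
  rw [map_sub, Derivation.leibniz, dJ, smul_zero, add_zero, pderiv_X, pderiv_X,
    Pi.single_apply, Pi.single_apply, smul_eq_mul]
  simp only [eq_comm]

theorem du0 : pderiv ℂ 0 u = 1 := by rw [u, pd_lin]; simp
theorem du1 : pderiv ℂ 1 u = J := by rw [u, pd_lin]; simp
theorem du2 : pderiv ℂ 2 u = 0 := by rw [u, pd_lin]; simp
theorem dv0 : pderiv ℂ 0 v = 1 := by rw [v, pd_lin']; simp
theorem dv1 : pderiv ℂ 1 v = -J := by rw [v, pd_lin']; simp
theorem dv2 : pderiv ℂ 2 v = 0 := by rw [v, pd_lin']; simp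
theorem dw0 : pderiv ℂ 0 w = 0 := by rw [w, pderiv_X_of_ne (by decide)]
theorem dw1 : pderiv ℂ 1 w = 0 := by rw [w, pderiv_X_of_ne (by decide)]
theorem dw2 : pderiv ℂ 2 w = 1 := by rw [w, pderiv_X_self]

theorem const_u : constantCoeff u = 0 := by simp [u]
theorem const_v : constantCoeff v = 0 := by simp [v]
theorem const_w : constantCoeff w = 0 := by simp [w]

theorem hr : r * (1 + u) = 1 := by
  unfold r
  apply MvPowerSeries.inv_mul_cancel
  rw [map_add, map_one, const_u, add_zero]
  exact one_ne_zero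

theorem dr (i : Fin 3) : pderiv ℂ i r = - r ^ 2 * pderiv ℂ i u := by
  have := Derivation.leibniz_of_mul_eq_one (pderiv ℂ i) hr
  rw [this, map_add, Derivation.map_one_eq_zero, zero_add, smul_eq_mul]

theorem ds (i : Fin 3) : pderiv ℂ i s = w * pderiv ℂ i r + r * pderiv ℂ i w := by
  rw [s, Derivation.leibniz, smul_eq_mul, smul_eq_mul]

theorem dP0 (i : Fin 3) : pderiv ℂ i P0 =
    pderiv ℂ i v + w ^ 2 * pderiv ℂ i r + r * (2 * w * pderiv ℂ i w) := by
  rw [P0, map_add, Derivation.leibniz, pderiv_pow, smul_eq_mul, smul_eq_mul]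
  push_cast
  ring

theorem dP (i : Fin 3) : pderiv ℂ i P = 3 * P0 ^ 2 * pderiv ℂ i P0 := by
  rw [P, pderiv_pow]; norm_num

theorem dP_0 : pderiv ℂ 0 P = 3 * P0 ^ 2 * (1 - s ^ 2) := by
  rw [dP, dP0, dr, dv0, dw0, du0, s]; ring
theorem dP_1 : pderiv ℂ 1 P = -(3 * J * P0 ^ 2 * (1 + s ^ 2)) := by
  rw [dP, dP0, dr, dv1, dw1, du1, s]; ring
theorem dP_2 : pderiv ℂ 2 P = 6 * P0 ^ 2 * s := by
  rw [dP, dP0, dr, dv2, dw2, du2, s]; ring

theorem const_P0 : constantCoeff P0 = 0 := by
  rw [P0, map_add, const_v, map_mul, map_pow, const_w]; simp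

theorem order_P : 3 ≤ P.order := by
  have h : 1 ≤ P0.order := by rw [one_le_order_iff_constCoeff_eq_zero, const_P0]
  have h2 := le_order_pow (f := P0) 3
  refine le_trans ?_ h2
  calc (3 : ℕ∞) = 3 • (1 : ℕ∞) := by norm_num
    _ ≤ 3 • P0.order := nsmul_le_nsmul_right h 3

theorem order_P2 : 2 ≤ P.order := le_trans (by norm_num) order_P

theorem admissible : Admissible P := by
  refine ⟨order_P2, ?_⟩
  have : (hessian P).map (constantCoeff (σ := Fin 3) (R := ℂ)) = 0 := by
    ext1 i j
    change constantCoeff (pderiv ℂ i (pderiv ℂ j P)) = 0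
    rw [← coeff_zero_eq_constantCoeff_apply, coeff_pderiv, coeff_pderiv]
    rw [coeff_of_lt_order]
    · simp
    · refine lt_of_lt_of_le ?_ order_P
      rw [zero_add, map_add, Finsupp.degree_single, Finsupp.degree_single]
      norm_num
  rw [this]
  exact ⟨1, by simp⟩

theorem hws : s * (1 + u) = w := by
  rw [s, mul_assoc, hr, mul_one]

theorem P0_eq : P0 = v + s ^ 2 * (1 + u) := by
  rw [P0, s]
  linear_combination (-(w ^ 2 * r)) * hr

theorem fix (t : ℂ) (i : Fin 3) :
    subst (fun j => X j + C t * pderiv ℂ j P) (pderiv ℂ i P) = pderiv ℂ i P := by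
  have hs := hasSubst_lin order_P2 t
  obtain ⟨φ, hφ⟩ : ∃ φ : R →ₐ[ℂ] R, φ = substAlgHom hs := ⟨_, rfl⟩
  have hφ' : ∀ f, subst (fun j => X j + C t * pderiv ℂ j P) f = φ f := by
    intro f; rw [hφ, substAlgHom_apply]
  have hX : ∀ j, φ (X j) = X j + C t * pderiv ℂ j P := by
    intro j; rw [hφ, substAlgHom_X]
  have hJ : φ J = J := by
    have : J = algebraMap ℂ R Complex.I := by rw [J, MvPowerSeries.algebraMap_apply]; rfl
    rw [this, AlgHom.commutes]
  obtain ⟨T, hT⟩ : ∃ T : R, T = C t := ⟨_, rfl⟩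
  rw [← hT] at hX
  have hu : φ u = u + 6 * T * P0 ^ 2 := by
    have : φ u = φ (X 0) + φ J * φ (X 1) := by rw [u, map_add, map_mul]
    rw [this, hX, hX, hJ, dP_0, dP_1, u]
    linear_combination (-3 * T * P0 ^ 2 * (1 + s ^ 2)) * J_sq
  have hv : φ v = v - 6 * T * P0 ^ 2 * s ^ 2 := by
    have : φ v = φ (X 0) - φ J * φ (X 1) := by rw [v, map_sub, map_mul]
    rw [this, hX, hX, hJ, dP_0, dP_1, v]
    linear_combination (3 * T * P0 ^ 2 * (1 + s ^ 2)) * J_sq
  have hw : φ w = w + 6 * T * P0 ^ 2 * s := by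
    rw [show φ w = φ (X 2) from rfl, hX, dP_2, show (X 2 : R) = w from rfl]; ring
  have h1 : φ s * (1 + φ u) = φ w := by
    rw [← map_one φ, ← map_add, ← map_mul, hws]
  have hne : (1 + u + 6 * T * P0 ^ 2 : R) ≠ 0 := by
    intro h
    have h2 := congrArg constantCoeff h
    rw [map_add, map_add, map_one, const_u, map_mul, map_pow, const_P0] at h2
    simp at h2
  have hs' : φ s = s := by
    apply mul_right_cancel₀ hne
    rw [hu, hw] at h1
    linear_combination h1 - hws
  have hP0 : φ P0 = P0 := by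
    have : φ P0 = φ v + φ s ^ 2 * (1 + φ u) := by
      conv_lhs => rw [P0_eq]
      rw [map_add, map_mul, map_pow, map_add, map_one]
    rw [this, hv, hs', hu]
    conv_rhs => rw [P0_eq]
    ring
  rw [hφ']
  fin_cases i
  · change φ (pderiv ℂ 0 P) = pderiv ℂ 0 P
    rw [dP_0]
    simp only [map_mul, map_pow, map_sub, map_one, map_ofNat, hP0, hs']
  · change φ (pderiv ℂ 1 P) = pderiv ℂ 1 P
    rw [dP_1]
    simp only [map_mul, map_pow, map_add, map_neg, map_one, map_ofNat, hP0, hs', hJ]
  · change φ (pderiv ℂ 2 P) = pderiv ℂ 2 P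
    rw [dP_2]
    simp only [map_mul, map_pow, map_ofNat, hP0, hs']

theorem trace_eq : (hessian P).trace = 6 * P0 ^ 2 * r := by
  have h : (hessian P).trace = pderiv ℂ 0 (pderiv ℂ 0 P) + pderiv ℂ 1 (pderiv ℂ 1 P) +
      pderiv ℂ 2 (pderiv ℂ 2 P) := by
    rw [Matrix.trace, Fin.sum_univ_three]; rfl
  rw [h, dP_0, dP_1, dP_2]
  have h3 : ∀ i : Fin 3, pderiv ℂ i (3 : R) = 0 := fun i => (pderiv ℂ i).map_natCast 3
  have h6 : ∀ i : Fin 3, pderiv ℂ i (6 : R) = 0 := fun i => (pderiv ℂ i).map_natCast 6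
  simp only [map_neg, map_add, map_sub, Derivation.leibniz, pderiv_pow, smul_eq_mul, h3, h6, dJ,
    Derivation.map_one_eq_zero, ds, dP0, dr, dv0, dv1, dv2, dw0, dw1, dw2, du0, du1, du2]
  norm_num
  have hs : s = w * r := rfl
  rw [hs]
  linear_combination (6 * P0 * (1 + w ^ 2 * r ^ 2) ^ 2 + 6 * P0 ^ 2 * w ^ 2 * r ^ 3) * J_sq

theorem r_ne : r ≠ 0 := by
  intro h
  have := hr
  rw [h, zero_mul] at this
  exact zero_ne_one this

theorem P0_ne : P0 ≠ 0 := by
  intro h
  have h1 := congrArg (pderiv ℂ 0) h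
  rw [dP0, dr, dv0, dw0, du0, map_zero] at h1
  have h2 := congrArg constantCoeff h1
  simp [const_w] at h2

theorem not_HN : ¬ IsHN P := by
  intro h
  have h1 := (Matrix.isNilpotent_trace_of_isNilpotent h).eq_zero
  rw [trace_eq] at h1
  have h6 : (6 : R) ≠ 0 := by
    intro h
    have := congrArg constantCoeff h
    rw [map_ofNat, map_zero] at this
    norm_num at this
  exact mul_ne_zero (mul_ne_zero h6 (pow_ne_zero _ P0_ne)) r_ne h1

/-- Every self-inverting polynomial over `ℂ`, in any number of variables, is Hessian nilpotent; but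
there is a self-inverting formal power series in three variables which is not. -/
theorem result :
    (∀ (n : ℕ) (p : MvPolynomial (Fin n) ℂ), SelfInverting (p : MvPowerSeries (Fin n) ℂ) →
      IsHN (p : MvPowerSeries (Fin n) ℂ)) ∧
    ∃ P : MvPowerSeries (Fin 3) ℂ, SelfInverting P ∧ ¬ IsHN P :=
  ⟨fun _ p h => isHN_of_selfInverting p h, P, selfInverting_of P admissible fix, not_HN⟩

end Pool.Agent.Results.MP_e6e7b2_al.SelfInvertingHN
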